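import Pool.Agent.helper98.Sz.GIa

/-!
# SZ-GI: assembly of the main counting identity
-/

open scoped symmDiff

namespace Pool.Agent.helper20.Sz

namespace GI
variable {X E : Type} [DecidableEq X] [Finite E] {K : Cube X E} {eta : X → Bool}

open Classical in
theorem GI (hK : K.IsSys eta) (s0 : Bool) (hN : K.NumP s0)
    (hab : ∀ (v G : Finset X) (f : E → ℕ), Hom v G →
      (∀ x y, K.same (v ∆ G) x y → f x = f y) → K.num (v ∆ G) + 2 = K.num v + G.card →
      ∀ B : Finset X, B = (G.filter fun c => ¬ f (K.head c) < f (K.tail c)) →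
      (((G.powerset.filter fun A => B ⊆ A ∧ K.AC s0 v A).card : ℕ) : ZMod 2) =
      if (∀ c ∈ B, f (K.tail c) = f (K.head c)) ∧ K.Spl v (G \ B) ∧ K.AC s0 (v ∆ (G \ B)) B
        then 1 else 0) : K.GIP s0 := by
  have hC := hK.toIsCore
  intro v G f hG hf
  -- homogeneity after a surgery
  have hHom : ∀ A ⊆ G, Hom v A := fun A hA c hc c' hc' => hG c (hA hc) c' (hA hc')
  have hHom' : ∀ A ⊆ G, Hom (v ∆ (G \ A)) A := by
    intro A hA c hc c' hc'
    have h1 : c ∉ G \ A := fun h => (Finset.mem_sdiff.mp h).2 hc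
    have h2 : c' ∉ G \ A := fun h => (Finset.mem_sdiff.mp h).2 hc'
    rw [Finset.mem_symmDiff, Finset.mem_symmDiff]
    have := hG c (hA hc) c' (hA hc')
    tauto
  have hcard : ∀ A ⊆ G, (G \ A).card + A.card = G.card :=
    fun A hA => Finset.card_sdiff_add_card_eq_card hA
  have hsd : ∀ A ⊆ G, v ∆ G = (v ∆ (G \ A)) ∆ A := by
    intro A hA
    rw [GIa.sd_sub (Finset.sdiff_subset : G \ A ⊆ G), Finset.sdiff_sdiff_eq_self hA]
  by_cases hnum : K.num (v ∆ G) + 2 = K.num v + G.card
  · set B := G.filter fun c => ¬ f (K.head c) < f (K.tail c) with hB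
    have hBG : B ⊆ G := Finset.filter_subset _ _
    have hgood : ∀ A ⊆ G, ((∀ c ∈ G \ A, f (K.head c) < f (K.tail c)) ↔ B ⊆ A) := by
      intro A hA
      constructor
      · intro h c hc
        rw [hB, Finset.mem_filter] at hc
        by_contra hcA
        exact hc.2 (h c (Finset.mem_sdiff.mpr ⟨hc.1, hcA⟩))
      · intro h c hc
        rw [Finset.mem_sdiff] at hc
        by_contra hcon
        exact hc.2 (h (by rw [hB, Finset.mem_filter]; exact ⟨hc.1, hcon⟩))
    have hL : (∑ A ∈ G.powerset, if K.AC s0 v A ∧ (∀ c ∈ G \ A, f (K.head c) < f (K.tail c)) ∧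
        K.Spl (v ∆ A) (G \ A) then (1 : ZMod 2) else 0) =
        (((G.powerset.filter fun A => B ⊆ A ∧ K.AC s0 v A).card : ℕ) : ZMod 2) := by
      rw [Finset.card_filter]
      push_cast
      apply Finset.sum_congr rfl
      intro A hA
      rw [Finset.mem_powerset] at hA
      have hiff : (K.AC s0 v A ∧ (∀ c ∈ G \ A, f (K.head c) < f (K.tail c)) ∧
          K.Spl (v ∆ A) (G \ A)) ↔ (B ⊆ A ∧ K.AC s0 v A) := by
        rw [hgood A hA]
        constructor
        · rintro ⟨h1, h2, -⟩; exact ⟨h2, h1⟩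
        · rintro ⟨h1, h2⟩
          refine ⟨h2, h1, ?_⟩
          have h3 := hN v A (hHom A hA) h2
          show K.num ((v ∆ A) ∆ (G \ A)) = K.num (v ∆ A) + (G \ A).card
          rw [← GIa.sd_sub hA]
          have := hcard A hA
          omega
      simp only [hiff]
    have hR : (∑ A ∈ G.powerset, if K.AC s0 (v ∆ (G \ A)) A ∧
        (∀ c ∈ G \ A, f (K.head c) < f (K.tail c)) ∧
        (∀ c ∈ A, f (K.tail c) = f (K.head c)) ∧ K.Spl v (G \ A) then (1 : ZMod 2) else 0) =
        if (∀ c ∈ B, f (K.tail c) = f (K.head c)) ∧ K.Spl v (G \ B) ∧ K.AC s0 (v ∆ (G \ B)) B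
        then 1 else 0 := by
      rw [Finset.sum_eq_single B]
      · have hg := (hgood B hBG).mpr (Finset.Subset.refl B)
        have hiff : (K.AC s0 (v ∆ (G \ B)) B ∧
          (∀ c ∈ G \ B, f (K.head c) < f (K.tail c)) ∧
          (∀ c ∈ B, f (K.tail c) = f (K.head c)) ∧ K.Spl v (G \ B)) ↔
          ((∀ c ∈ B, f (K.tail c) = f (K.head c)) ∧ K.Spl v (G \ B) ∧
            K.AC s0 (v ∆ (G \ B)) B) := by
          constructor
          · rintro ⟨h1, -, h2, h3⟩; exact ⟨h2, h3, h1⟩
          · rintro ⟨h2, h3, h1⟩; exact ⟨h1, hg, h2, h3⟩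
        simp only [hiff]
      · intro A hA hne
        rw [Finset.mem_powerset] at hA
        rw [if_neg]
        rintro ⟨-, h1, h2, -⟩
        apply hne
        apply Finset.Subset.antisymm
        · intro c hc
          rw [hB, Finset.mem_filter]
          refine ⟨hA hc, ?_⟩
          rw [h2 c hc]
          exact lt_irrefl _
        · exact (hgood A hA).mp h1
      · intro h
        exact absurd (Finset.mem_powerset.mpr hBG) h
    rw [hL, hR]
    exact hab v G f hG hf hnum B hB
  · rw [Finset.sum_eq_zero, Finset.sum_eq_zero]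
    · intro A hA
      rw [Finset.mem_powerset] at hA
      rw [if_neg]
      rintro ⟨h1, -, -, h2⟩
      apply hnum
      have h3 := hN _ A (hHom' A hA) h1
      rw [← hsd A hA] at h3
      have h4 : K.num (v ∆ (G \ A)) = K.num v + (G \ A).card := h2
      have := hcard A hA
      omega
    · intro A hA
      rw [Finset.mem_powerset] at hA
      rw [if_neg]
      rintro ⟨h1, -, h2⟩
      apply hnum
      have h3 := hN v A (hHom A hA) h1
      have h4 : K.num ((v ∆ A) ∆ (G \ A)) = K.num (v ∆ A) + (G \ A).card := h2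
      rw [← GIa.sd_sub hA] at h4
      have := hcard A hA
      omega

end GI

end Pool.Agent.helper20.Sz
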