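import Pool.Agent.helper20.Sz.B1

/-!
# SZ-GIa: the main counting identity when some arc is not a loop
-/

open scoped symmDiff

namespace Pool.Agent.helper20.Sz

namespace GIa
variable {X E : Type} [DecidableEq X] [Finite E] {K : Cube X E} {eta : X → Bool}

theorem sd_sub {v A G : Finset X} (h : A ⊆ G) : v ∆ G = (v ∆ A) ∆ (G \ A) := by
  rw [symmDiff_assoc, symmDiff_sdiff_eq_sup, Finset.sup_eq_union, Finset.union_eq_right.mpr h]

/-- a nonloop in `H` costs two -/
theorem drop (hK : K.IsCore) {w H : Finset X} {c : X} (hc : c ∈ H) (hn : ¬ K.Loop w c) :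
    K.num (w ∆ H) + 2 ≤ K.num w + H.card := by
  have h1 : w ∆ H = (w ∆ {c}) ∆ (H \ {c}) := sd_sub (Finset.singleton_subset_iff.mpr hc)
  have h2 := B1.num_le hK (w ∆ {c}) (H \ {c})
  have h3 := B1.num_flip_nonloop hK hn
  have h4 : (H \ {c}).card + 1 = H.card := by
    rw [Finset.card_sdiff_of_subset (Finset.singleton_subset_iff.mpr hc), Finset.card_singleton]
    have := Finset.card_pos.mpr ⟨c, hc⟩
    omega
  rw [← h1] at h2
  omega

/-- two merges cost four -/
theorem drop2 (hK : K.IsCore) {w H : Finset X} {c c' : X} (hc : c ∈ H) (hc' : c' ∈ H)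
    (hne : c' ≠ c) (hn : ¬ K.Loop w c) (hn' : ¬ K.Loop (w ∆ {c}) c') :
    K.num (w ∆ H) + 4 ≤ K.num w + H.card := by
  have h1 : w ∆ H = (w ∆ {c}) ∆ (H \ {c}) := sd_sub (Finset.singleton_subset_iff.mpr hc)
  have hc'' : c' ∈ H \ {c} := by
    rw [Finset.mem_sdiff, Finset.mem_singleton]; exact ⟨hc', hne⟩
  have h2 := drop hK hc'' hn'
  have h3 := B1.num_flip_nonloop hK hn
  have h4 : (H \ {c}).card + 1 = H.card := by
    rw [Finset.card_sdiff_of_subset (Finset.singleton_subset_iff.mpr hc), Finset.card_singleton]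
    have := Finset.card_pos.mpr ⟨c, hc⟩
    omega
  rw [← h1] at h2
  omega

/-- counting nonempty sets between `B` and `C` -/
theorem count_between (B C : Finset X) :
    (((C.powerset.filter fun A => A.Nonempty ∧ B ⊆ A).card : ℕ) : ZMod 2) =
      if C.Nonempty ∧ (B = ∅ ∨ B = C) then 1 else 0 := by
  classical
  by_cases hB : B = ∅
  · subst hB
    have h1 : (C.powerset.filter fun A => A.Nonempty ∧ ∅ ⊆ A) = C.powerset.erase ∅ := by
      ext A
      simp only [Finset.mem_filter, Finset.mem_powerset, Finset.empty_subset, and_true,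
        Finset.mem_erase, Finset.nonempty_iff_ne_empty]
      tauto
    rw [h1, Finset.card_erase_of_mem (Finset.empty_mem_powerset C), Finset.card_powerset]
    by_cases hC : C.Nonempty
    · rw [if_pos ⟨hC, Or.inl rfl⟩]
      obtain ⟨n, hn⟩ : ∃ n, C.card = n + 1 := ⟨C.card - 1, by have := hC.card_pos; omega⟩
      have h2 : 1 ≤ 2 ^ C.card := Nat.one_le_two_pow
      rw [Nat.cast_sub h2, hn, pow_succ]
      push_cast
      have : (2 : ZMod 2) = 0 := rfl
      rw [this, mul_zero]
      rfl
    · rw [if_neg (fun h => hC h.1)]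
      rw [Finset.not_nonempty_iff_eq_empty] at hC
      subst hC
      simp
  · by_cases hBC : B ⊆ C
    · have h1 : (C.powerset.filter fun A => A.Nonempty ∧ B ⊆ A) = Finset.Icc B C := by
        ext A
        simp only [Finset.mem_filter, Finset.mem_powerset, Finset.mem_Icc]
        constructor
        · rintro ⟨h1, h2, h3⟩; exact ⟨h3, h1⟩
        · rintro ⟨h1, h2⟩
          exact ⟨h2, (Finset.nonempty_iff_ne_empty.mpr hB).mono h1, h1⟩
      rw [h1, Finset.card_Icc_finset hBC]
      by_cases hEq : B = C
      · subst hEq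
        rw [if_pos ⟨Finset.nonempty_iff_ne_empty.mpr hB, Or.inr rfl⟩]
        simp
      · rw [if_neg (fun h => h.2.elim hB hEq)]
        have h2 : B.card < C.card := Finset.card_lt_card (Finset.ssubset_iff_subset_ne.mpr ⟨hBC, hEq⟩)
        obtain ⟨n, hn⟩ : ∃ n, C.card - B.card = n + 1 := ⟨C.card - B.card - 1, by omega⟩
        rw [hn, pow_succ]
        push_cast
        have : (2 : ZMod 2) = 0 := rfl
        rw [this, mul_zero]
    · have h1 : (C.powerset.filter fun A => A.Nonempty ∧ B ⊆ A) = ∅ := by
        rw [Finset.filter_eq_empty_iff]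
        intro A hA hcon
        exact hBC (hcon.2.trans (Finset.mem_powerset.mp hA))
      rw [h1, if_neg]
      · simp
      · rintro ⟨-, h | h⟩
        · exact hB h
        · exact hBC (h ▸ Finset.Subset.refl _)

open Classical in
theorem GIa (hK : K.IsSys eta) (s0 : Bool) (hN : K.NumP s0) (v G : Finset X) (f : E → ℕ)
    (hG : Hom v G) (hf : ∀ x y, K.same (v ∆ G) x y → f x = f y)
    (hnum : K.num (v ∆ G) + 2 = K.num v + G.card) (hex : ∃ c ∈ G, ¬ K.Loop v c)
    (B : Finset X) (hB : B = G.filter fun c => ¬ f (K.head c) < f (K.tail c)) :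
    (((G.powerset.filter fun A => B ⊆ A ∧ K.AC s0 v A).card : ℕ) : ZMod 2) =
    if (∀ c ∈ B, f (K.tail c) = f (K.head c)) ∧ K.Spl v (G \ B) ∧ K.AC s0 (v ∆ (G \ B)) B
      then 1 else 0 := by
  have hC := hK.toIsCore
  obtain ⟨c0, hc0, hn0⟩ := hex
  have hBG : B ⊆ G := by rw [hB]; exact Finset.filter_subset _ _
  have hrefl : ∀ w x, K.same w x x := fun w x => (hC.eqv w).refl x
  have hsymm : ∀ {w x y}, K.same w x y → K.same w y x := fun h => (hC.eqv _).symm h
  have htrans : ∀ {w x y z}, K.same w x y → K.same w y z → K.same w x z :=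
    fun h h' => (hC.eqv _).trans h h'
  set Cp := G.filter fun c => K.same v (K.tail c) (K.tail c0) ∧ K.same v (K.head c) (K.head c0)
    with hCp
  set Cm := G.filter fun c => K.same v (K.tail c) (K.head c0) ∧ K.same v (K.head c) (K.tail c0)
    with hCm
  have hc0p : c0 ∈ Cp := by
    rw [hCp, Finset.mem_filter]; exact ⟨hc0, hrefl _ _, hrefl _ _⟩
  have hnp : ∀ c ∈ Cp, ¬ K.Loop v c := by
    intro c hc hl
    rw [hCp, Finset.mem_filter] at hc
    exact hn0 (htrans (hsymm hc.2.1) (htrans hl hc.2.2))
  have hnm : ∀ c ∈ Cm, ¬ K.Loop v c := by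
    intro c hc hl
    rw [hCm, Finset.mem_filter] at hc
    exact hn0 (htrans (hsymm hc.2.2) (htrans (hsymm hl) hc.2.1))
  have hdisj : ∀ c, c ∈ Cp → c ∈ Cm → False := by
    intro c hp hm
    rw [hCp, Finset.mem_filter] at hp
    rw [hCm, Finset.mem_filter] at hm
    exact hn0 (htrans (hsymm hp.2.1) hm.2.1)
  -- (i) nonloops join the same two circles
  have hi : ∀ c ∈ G, ¬ K.Loop v c → c ∈ Cp ∨ c ∈ Cm := by
    intro c hc hn
    by_cases hcc : c = c0
    · left; rw [hcc]; exact hc0p
    · have hl : K.Loop (v ∆ {c0}) c := by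
        by_contra hl
        have := drop2 hC hc0 hc hcc hn0 hl
        omega
      rcases (hC.merge v c0 hn0 _ _).mp hl with h | ⟨h1, h2⟩ | ⟨h1, h2⟩
      · exact absurd h hn
      · left; rw [hCp, Finset.mem_filter]; exact ⟨hc, h1, hsymm h2⟩
      · right; rw [hCm, Finset.mem_filter]; exact ⟨hc, h1, hsymm h2⟩
  -- a set of loops does not make `c0` a loop
  have hkeep : ∀ A : Finset X, (∀ c ∈ A, K.Loop v c) → ∀ c, ¬ K.Loop v c → ¬ K.Loop (v ∆ A) c := by
    intro A hA c hn hl
    have h1 := B1.inv_flip hC (fun x => K.same v x (K.tail c)) v A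
      (fun x y hxy => propext ⟨fun h => htrans (hsymm hxy) h, fun h => htrans hxy h⟩)
      (fun c' hc' => propext ⟨fun h => htrans (hsymm (hA c' hc')) h, fun h => htrans (hA c' hc') h⟩)
      _ _ hl
    have h2 : K.same v (K.head c) (K.tail c) := by
      rw [← h1]; exact hrefl _ _
    exact hn (hsymm h2)
  -- (ii)
  have hAC : ∀ A ⊆ G, (K.AC s0 v A ↔ A.Nonempty ∧ (A ⊆ Cp ∨ A ⊆ Cm)) := by
    intro A hA
    constructor
    · rintro (⟨hne, a, b, hab, hg⟩ | hbun)
      · refine ⟨hne, ?_⟩
        obtain ⟨g0, hg0⟩ := hne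
        have hnl : ∀ g ∈ A, ¬ K.Loop v g := by
          intro g hgA hl
          exact hab (htrans (hsymm (hg g hgA).1) (htrans hl (hg g hgA).2))
        rcases hi g0 (hA hg0) (hnl g0 hg0) with h | h
        · left
          intro g hgA
          have h0 := h
          rw [hCp, Finset.mem_filter] at h ⊢
          exact ⟨hA hgA, htrans (hg g hgA).1 (htrans (hsymm (hg g0 hg0).1) h.2.1),
            htrans (hg g hgA).2 (htrans (hsymm (hg g0 hg0).2) h.2.2)⟩
        · right
          intro g hgA
          rw [hCm, Finset.mem_filter] at h ⊢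
          exact ⟨hA hgA, htrans (hg g hgA).1 (htrans (hsymm (hg g0 hg0).1) h.2.1),
            htrans (hg g hgA).2 (htrans (hsymm (hg g0 hg0).2) h.2.2)⟩
      · exfalso
        have hloop : ∀ c ∈ A, K.Loop v c := by
          obtain ⟨A1, A2, hU, hd, hne1, hne2, hcr⟩ := hbun
          intro c hc
          rw [← hU, Finset.mem_union] at hc
          rcases hc with hc | hc
          · obtain ⟨c', hc'⟩ := hne2
            exact (hcr c hc c' hc').1
          · obtain ⟨c', hc'⟩ := hne1
            exact (hcr c' hc' c hc).2.1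
        have hHom : Hom v A := fun c hc c' hc' => hG c (hA hc) c' (hA hc')
        have h1 := hN v A hHom (Or.inr hbun)
        have h2 := hkeep A hloop c0 hn0
        have hc0A : c0 ∈ G \ A := by
          rw [Finset.mem_sdiff]
          exact ⟨hc0, fun h => hn0 (hloop c0 h)⟩
        have h3 := drop hC hc0A h2
        rw [← sd_sub hA] at h3
        have h4 : (G \ A).card + A.card = G.card := Finset.card_sdiff_add_card_eq_card hA
        omega
    · rintro ⟨hne, h | h⟩
      · left
        refine ⟨hne, K.tail c0, K.head c0, hn0, fun g hg => ?_⟩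
        have := h hg
        rw [hCp, Finset.mem_filter] at this
        exact this.2
      · left
        refine ⟨hne, K.head c0, K.tail c0, fun h' => hn0 (hsymm h'), fun g hg => ?_⟩
        have := h hg
        rw [hCm, Finset.mem_filter] at this
        exact this.2
  -- (iii) conservation
  have hcons : ∑ c ∈ Cp, ((f (K.head c) : ℤ) - f (K.tail c)) =
      ∑ c ∈ Cm, ((f (K.head c) : ℤ) - f (K.tail c)) := by
    have htele := hK.tele v G (fun x => (f x : ℤ)) (fun x y h => by rw [hf x y h]) (K.tail c0)
    have heta : ∀ c ∈ G, c ∈ Cp ∨ c ∈ Cm → eta c = eta c0 := by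
      intro c hc h
      apply hK.side2 v c c0 (hG c hc c0 hc0)
      · rcases h with h | h
        · exact hnp c h
        · exact hnm c h
      · rcases h with h | h
        · left; rw [hCp, Finset.mem_filter] at h; exact h.2
        · right; rw [hCm, Finset.mem_filter] at h; exact h.2
    have hterm : ∀ c ∈ G, (if eta c then (1 : ℤ) else -1) * ((f (K.head c) : ℤ) - f (K.tail c)) *
        ((if K.same v (K.tail c) (K.tail c0) then 1 else 0) -
          (if K.same v (K.head c) (K.tail c0) then 1 else 0)) =
        (if eta c0 then (1 : ℤ) else -1) *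
          ((if c ∈ Cp then ((f (K.head c) : ℤ) - f (K.tail c)) else 0) -
           (if c ∈ Cm then ((f (K.head c) : ℤ) - f (K.tail c)) else 0)) := by
      intro c hc
      by_cases hp : c ∈ Cp
      · have hm : c ∉ Cm := fun h => hdisj c hp h
        have hp' := hp
        rw [hCp, Finset.mem_filter] at hp'
        have hnh : ¬ K.same v (K.head c) (K.tail c0) := by
          intro h
          exact hn0 (htrans (hsymm h) hp'.2.2)
        rw [if_pos hp, if_neg hm, if_pos hp'.2.1, if_neg hnh, heta c hc (Or.inl hp)]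
        ring
      · by_cases hm : c ∈ Cm
        · have hm' := hm
          rw [hCm, Finset.mem_filter] at hm'
          have hnh : ¬ K.same v (K.tail c) (K.tail c0) := by
            intro h
            exact hn0 (htrans (hsymm h) hm'.2.1)
          rw [if_neg hp, if_pos hm, if_neg hnh, if_pos hm'.2.2, heta c hc (Or.inr hm)]
          ring
        · have hl : K.Loop v c := by
            by_contra hn
            rcases hi c hc hn with h | h
            · exact hp h
            · exact hm h
          rw [if_neg hp, if_neg hm]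
          have : K.same v (K.tail c) (K.tail c0) ↔ K.same v (K.head c) (K.tail c0) :=
            ⟨fun h => htrans (hsymm hl) h, fun h => htrans hl h⟩
          by_cases h : K.same v (K.tail c) (K.tail c0)
          · rw [if_pos h, if_pos (this.mp h)]; ring
          · rw [if_neg h, if_neg (fun h' => h (this.mpr h'))]; ring
    rw [Finset.sum_congr rfl hterm, ← Finset.mul_sum, Finset.sum_sub_distrib] at htele
    have hsp : ∑ c ∈ G, (if c ∈ Cp then ((f (K.head c) : ℤ) - f (K.tail c)) else 0) =
        ∑ c ∈ Cp, ((f (K.head c) : ℤ) - f (K.tail c)) := by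
      rw [← Finset.sum_filter]
      congr 1
      ext c
      rw [Finset.mem_filter]
      constructor
      · exact fun h => h.2
      · exact fun h => ⟨Finset.mem_of_mem_filter c h, h⟩
    have hsm : ∑ c ∈ G, (if c ∈ Cm then ((f (K.head c) : ℤ) - f (K.tail c)) else 0) =
        ∑ c ∈ Cm, ((f (K.head c) : ℤ) - f (K.tail c)) := by
      rw [← Finset.sum_filter]
      congr 1
      ext c
      rw [Finset.mem_filter]
      constructor
      · exact fun h => h.2
      · exact fun h => ⟨Finset.mem_of_mem_filter c h, h⟩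
    rw [hsp, hsm] at htele
    have hne : (if eta c0 then (1 : ℤ) else -1) ≠ 0 := by split_ifs <;> norm_num
    have := (mul_eq_zero.mp htele).resolve_left hne
    linarith
  -- good and bad
  have hbad : ∀ c ∈ G, (c ∈ B ↔ f (K.tail c) ≤ f (K.head c)) := by
    intro c hc
    rw [hB, Finset.mem_filter, not_lt]
    exact ⟨fun h => h.2, fun h => ⟨hc, h⟩⟩
  have hCpG : Cp ⊆ G := Finset.filter_subset _ _
  have hCmG : Cm ⊆ G := Finset.filter_subset _ _
  have hgoodsum : ∀ C' ⊆ G, (∀ c ∈ C', c ∉ B) →
      ∑ c ∈ C', ((f (K.head c) : ℤ) - f (K.tail c)) ≤ - (C'.card : ℤ) := by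
    intro C' hC' h
    have : ∑ c ∈ C', ((f (K.head c) : ℤ) - f (K.tail c)) ≤ ∑ c ∈ C', (-1 : ℤ) := by
      apply Finset.sum_le_sum
      intro c hc
      have h1 := h c hc
      rw [hbad c (hC' hc)] at h1
      push Not at h1
      have : (f (K.head c) : ℤ) + 1 ≤ f (K.tail c) := by exact_mod_cast h1
      linarith
    simpa using this
  -- left hand side
  have hLHS : (((G.powerset.filter fun A => B ⊆ A ∧ K.AC s0 v A).card : ℕ) : ZMod 2) =
      (if Cp.Nonempty ∧ (B = ∅ ∨ B = Cp) then 1 else 0) +
      (if Cm.Nonempty ∧ (B = ∅ ∨ B = Cm) then 1 else 0) := by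
    have hsplit : (G.powerset.filter fun A => B ⊆ A ∧ K.AC s0 v A) =
        (Cp.powerset.filter fun A => A.Nonempty ∧ B ⊆ A) ∪
        (Cm.powerset.filter fun A => A.Nonempty ∧ B ⊆ A) := by
      ext A
      simp only [Finset.mem_union, Finset.mem_filter, Finset.mem_powerset]
      constructor
      · rintro ⟨hA, hBA, hac⟩
        obtain ⟨hne, h | h⟩ := (hAC A hA).mp hac
        · left; exact ⟨h, hne, hBA⟩
        · right; exact ⟨h, hne, hBA⟩
      · rintro (⟨h, hne, hBA⟩ | ⟨h, hne, hBA⟩)
        · exact ⟨h.trans hCpG, hBA, (hAC A (h.trans hCpG)).mpr ⟨hne, Or.inl h⟩⟩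
        · exact ⟨h.trans hCmG, hBA, (hAC A (h.trans hCmG)).mpr ⟨hne, Or.inr h⟩⟩
    rw [hsplit, Finset.card_union_of_disjoint, Nat.cast_add, count_between, count_between]
    rw [Finset.disjoint_left]
    intro A h1 h2
    rw [Finset.mem_filter, Finset.mem_powerset] at h1 h2
    obtain ⟨a, ha⟩ := h1.2.1
    exact hdisj a (h1.1 ha) (h2.1 ha)
  rw [hLHS]
  by_cases hB0 : B = ∅
  · -- no bad arc
    have hcm : Cm.Nonempty := by
      rw [Finset.nonempty_iff_ne_empty]
      intro h
      have h1 := hgoodsum Cp hCpG (fun c _ => by rw [hB0]; simp)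
      rw [hcons, h, Finset.sum_empty] at h1
      have h2 := Finset.card_pos.mpr ⟨c0, hc0p⟩
      omega
    rw [if_pos ⟨⟨c0, hc0p⟩, Or.inl hB0⟩, if_pos ⟨hcm, Or.inl hB0⟩, if_neg]
    · decide
    · rintro ⟨-, -, hac⟩
      rw [hB0] at hac
      rcases hac with ⟨hne, -⟩ | ⟨A1, A2, hU, -, hne1, -⟩
      · exact Finset.not_nonempty_empty hne
      · rw [Finset.union_eq_empty] at hU
        rw [hU.1] at hne1
        exact Finset.not_nonempty_empty hne1
  · -- B = Cm is impossible
    have hBm : B ≠ Cm := by
      intro h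
      have h1 := hgoodsum Cp hCpG (fun c hc hcB => hdisj c hc (h ▸ hcB))
      have h2 : 0 ≤ ∑ c ∈ Cm, ((f (K.head c) : ℤ) - f (K.tail c)) := by
        apply Finset.sum_nonneg
        intro c hc
        have h3 := (hbad c (hCmG hc)).mp (h ▸ hc)
        have : (f (K.tail c) : ℤ) ≤ f (K.head c) := by exact_mod_cast h3
        linarith
      rw [← hcons] at h2
      have h3 := Finset.card_pos.mpr ⟨c0, hc0p⟩
      omega
    have e2 : (if Cm.Nonempty ∧ (B = ∅ ∨ B = Cm) then (1 : ZMod 2) else 0) = 0 := by
      rw [if_neg]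
      rintro ⟨-, h | h⟩
      · exact hB0 h
      · exact hBm h
    rw [e2, add_zero]
    have hiff : (Cp.Nonempty ∧ (B = ∅ ∨ B = Cp)) ↔
        ((∀ c ∈ B, f (K.tail c) = f (K.head c)) ∧ K.Spl v (G \ B) ∧ K.AC s0 (v ∆ (G \ B)) B) := by
      constructor
      · rintro ⟨-, h | hBp⟩
        · exact absurd h hB0
        · -- C- is empty
          have hm : Cm = ∅ := by
            have h1 := hgoodsum Cm hCmG (fun c hc hcB => hdisj c (hBp ▸ hcB) hc)
            have h2 : 0 ≤ ∑ c ∈ Cp, ((f (K.head c) : ℤ) - f (K.tail c)) := by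
              apply Finset.sum_nonneg
              intro c hc
              have h3 := (hbad c (hCpG hc)).mp (hBp ▸ hc)
              have : (f (K.tail c) : ℤ) ≤ f (K.head c) := by exact_mod_cast h3
              linarith
            rw [hcons] at h2
            rw [← Finset.card_eq_zero]
            omega
          have hT : ∀ c ∈ G \ B, K.Loop v c := by
            intro c hc
            rw [Finset.mem_sdiff] at hc
            by_contra hn
            rcases hi c hc.1 hn with h | h
            · exact hc.2 (hBp ▸ h)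
            · rw [hm] at h; simp at h
          have hcard : (G \ B).card + B.card = G.card := Finset.card_sdiff_add_card_eq_card hBG
          have hGeq : v ∆ G = (v ∆ (G \ B)) ∆ B := by
            rw [sd_sub (Finset.sdiff_subset : G \ B ⊆ G), Finset.sdiff_sdiff_eq_self hBG]
          have hkeep' := fun c hc => hkeep (G \ B) hT c hc
          have hc0B : c0 ∈ B := hBp ▸ hc0p
          have hspl : K.Spl v (G \ B) := by
            have h1 := drop hC hc0B (hkeep' c0 hn0)
            rw [← hGeq] at h1
            have h2 := B1.num_le hC v (G \ B)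
            show K.num (v ∆ (G \ B)) = K.num v + (G \ B).card
            omega
          refine ⟨?_, hspl, ?_⟩
          · -- f is constant on the arcs of B
            have h0 : ∑ c ∈ Cp, ((f (K.head c) : ℤ) - f (K.tail c)) = 0 := by
              rw [hcons, hm, Finset.sum_empty]
            have h1 := (Finset.sum_eq_zero_iff_of_nonneg (fun c hc => by
              have h3 := (hbad c (hCpG hc)).mp (hBp ▸ hc)
              have : (f (K.tail c) : ℤ) ≤ f (K.head c) := by exact_mod_cast h3
              linarith)).mp h0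
            intro c hc
            have h2 := h1 c (hBp ▸ hc)
            have h3 : (f (K.head c) : ℤ) = f (K.tail c) := by linarith
            exact_mod_cast h3.symm
          · left
            refine ⟨⟨c0, hc0B⟩, K.tail c0, K.head c0, hkeep' c0 hn0, fun c hc => ?_⟩
            by_cases hcc : c = c0
            · rw [hcc]; exact ⟨hrefl _ _, hrefl _ _⟩
            · have hcp : c ∈ Cp := hBp ▸ hc
              have hl : K.Loop ((v ∆ (G \ B)) ∆ {c0}) c := by
                by_contra hl
                have h1 := drop2 hC hc0B hc hcc (hkeep' c0 hn0) hl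
                rw [← hGeq] at h1
                have h2 : K.num (v ∆ (G \ B)) = K.num v + (G \ B).card := hspl
                omega
              rcases (hC.merge _ c0 (hkeep' c0 hn0) _ _).mp hl with h | ⟨h1, h2⟩ | ⟨h1, h2⟩
              · exact absurd h (hkeep' c (hnp c hcp))
              · exact ⟨h1, hsymm h2⟩
              · exfalso
                have h3 := B1.spl_finer hC hspl _ _ h1
                rw [hCp, Finset.mem_filter] at hcp
                exact hn0 (htrans (hsymm hcp.2.1) h3)
      · rintro ⟨-, hspl, hac⟩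
        refine ⟨⟨c0, hc0p⟩, Or.inr ?_⟩
        have hsub : ∀ c ∈ G, ¬ K.Loop v c → c ∈ B := by
          intro c hc hn
          by_contra hcB
          exact hn (B1.spl_loop hC hspl c (Finset.mem_sdiff.mpr ⟨hc, hcB⟩)).1
        have hc0B : c0 ∈ B := hsub c0 hc0 hn0
        have hn0w : ¬ K.Loop (v ∆ (G \ B)) c0 := fun h => hn0 (B1.spl_finer hC hspl _ _ h)
        rcases hac with ⟨-, a, b, hab, hg⟩ | ⟨A1, A2, hU, -, hne1, hne2, hcr⟩
        · apply Finset.Subset.antisymm
          · intro g hgB
            rw [hCp, Finset.mem_filter]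
            refine ⟨hBG hgB, ?_, ?_⟩
            · exact B1.spl_finer hC hspl _ _ (htrans (hg g hgB).1 (hsymm (hg c0 hc0B).1))
            · exact B1.spl_finer hC hspl _ _ (htrans (hg g hgB).2 (hsymm (hg c0 hc0B).2))
          · intro c hc
            exact hsub c (hCpG hc) (hnp c hc)
        · exfalso
          rw [← hU, Finset.mem_union] at hc0B
          rcases hc0B with h | h
          · obtain ⟨c', hc'⟩ := hne2
            exact hn0w (hcr c0 h c' hc').1
          · obtain ⟨c', hc'⟩ := hne1
            exact hn0w (hcr c' hc' c0 h).2.1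
    by_cases hq : Cp.Nonempty ∧ (B = ∅ ∨ B = Cp)
    · rw [if_pos hq, if_pos (hiff.mp hq)]
    · rw [if_neg hq, if_neg (fun h => hq (hiff.mpr h))]

end GIa

end Pool.Agent.helper20.Sz
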